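import Mathlib

/-!
# Project RG (MP_a3214d): packing in a torsion-free group, and the number of small integers

`card_le_pack` is the packing lemma by pigeonhole modulo `N`: no volumes are needed.
-/

set_option autoImplicit false

open NumberField

namespace Pool.Agent.H41.RG

/-- Packing: a finite set of elements of norm at most `T` in a torsion-free abelian group of rank
at most `R` in which every non-zero element has norm at least `lam`. -/
theorem card_le_pack {G : Type*} [AddCommGroup G] [IsAddTorsionFree G] (nrm : G → ℝ)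
    (h1 : ∀ x y, nrm (x - y) ≤ nrm x + nrm y) (h2 : ∀ (N : ℕ) (x : G), nrm (N • x) = N * nrm x)
    {lam T : ℝ} (hlam : 0 < lam) (hT : 0 ≤ T) (S : Finset G)
    (hl : ∀ x ∈ AddSubgroup.closure (S : Set G), x ≠ 0 → lam ≤ nrm x)
    (hS : ∀ x ∈ S, nrm x ≤ T) (R : ℕ)
    (hR : ∀ (n : ℕ) (v : Fin n → G), (∀ i, v i ∈ AddSubgroup.closure (S : Set G)) →
      LinearIndependent ℤ v → n ≤ R) :
    (S.card : ℝ) ≤ (1 + 2 * T / lam) ^ R := by
  classical
  set X : AddSubgroup G := AddSubgroup.closure (S : Set G) with hX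
  set Y : Submodule ℤ G := AddSubgroup.toIntSubmodule X with hY
  have hYspan : Y = Submodule.span ℤ (S : Set G) := by
    rw [hY, hX, ← Submodule.span_int_eq_addSubgroupClosure]
    simp
  have hfin : Module.Finite ℤ Y := by
    rw [hYspan]
    exact Module.Finite.span_finset ℤ S
  have htf : Module.IsTorsionFree ℤ Y := inferInstance
  have hfree : Module.Free ℤ Y := inferInstance
  let b : Module.Basis (Fin (Module.finrank ℤ Y)) ℤ Y := Module.finBasis ℤ Y
  have hr : Module.finrank ℤ Y ≤ R := by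
    apply hR _ (fun i => (b i : G))
    · intro i
      exact (b i).2
    · exact b.linearIndependent.map' Y.subtype (LinearMap.ker_eq_bot.mpr Subtype.val_injective)
  -- the modulus
  obtain ⟨N, hN1, hN2⟩ : ∃ N : ℕ, 2 * T / lam < N ∧ (N : ℝ) ≤ 1 + 2 * T / lam := by
    refine ⟨⌊2 * T / lam⌋₊ + 1, ?_, ?_⟩
    · push_cast
      exact Nat.lt_floor_add_one _
    · push_cast
      have := Nat.floor_le (a := 2 * T / lam) (by positivity)
      linarith
  have hN0 : 0 < N := by
    have h : (0 : ℝ) < N := lt_of_le_of_lt (by positivity) hN1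
    exact_mod_cast h
  have hNe : NeZero N := ⟨hN0.ne'⟩
  have hmem : ∀ x ∈ S, x ∈ Y := fun x hx => AddSubgroup.subset_closure hx
  let F : S → (Fin (Module.finrank ℤ Y) → ZMod N) :=
    fun x i => ((b.repr ⟨x.1, hmem x.1 x.2⟩ i : ℤ) : ZMod N)
  have hinj : Function.Injective F := by
    intro x y hxy
    by_contra hne
    have hdiv : ∀ i, (N : ℤ) ∣ b.repr (⟨x.1, hmem x.1 x.2⟩ - ⟨y.1, hmem y.1 y.2⟩) i := by
      intro i
      have h := congrFun hxy i
      simp only [F] at h
      rw [ZMod.intCast_eq_intCast_iff_dvd_sub] at h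
      rw [map_sub, Finsupp.sub_apply]
      have := (dvd_neg.mpr h)
      rwa [neg_sub] at this
    choose c hc using hdiv
    have hz : (⟨x.1, hmem x.1 x.2⟩ - ⟨y.1, hmem y.1 y.2⟩ : Y) = (N : ℤ) • ∑ i, c i • b i := by
      rw [← b.sum_repr (⟨x.1, hmem x.1 x.2⟩ - ⟨y.1, hmem y.1 y.2⟩), Finset.smul_sum]
      apply Finset.sum_congr rfl
      intro i _
      rw [hc i, mul_smul]
    set z : Y := ∑ i, c i • b i with hzdef
    have hz' : x.1 - y.1 = N • (z : G) := by
      have h := congrArg (fun w : Y => (w : G)) hz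
      simpa using h
    have hz0 : (z : G) ≠ 0 := by
      intro h0
      rw [h0, smul_zero, sub_eq_zero] at hz'
      exact hne (Subtype.ext hz')
    have h3 : lam ≤ nrm (z : G) := hl _ z.2 hz0
    have h4 : (N : ℝ) * nrm (z : G) ≤ 2 * T := by
      rw [← h2, ← hz']
      exact (h1 _ _).trans (by linarith [hS x.1 x.2, hS y.1 y.2])
    have h5 : 2 * T < N * lam := by
      rwa [div_lt_iff₀ hlam] at hN1
    have h6 : (N : ℝ) * lam ≤ N * nrm (z : G) :=
      mul_le_mul_of_nonneg_left h3 (Nat.cast_nonneg _)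
    linarith
  have hcard : S.card ≤ N ^ Module.finrank ℤ Y := by
    have h := Fintype.card_le_of_injective F hinj
    simpa [Fintype.card_pi, ZMod.card] using h
  have hN1' : 1 ≤ N := hN0
  calc (S.card : ℝ) ≤ ((N ^ Module.finrank ℤ Y : ℕ) : ℝ) := by exact_mod_cast hcard
    _ ≤ ((N ^ R : ℕ) : ℝ) := by exact_mod_cast Nat.pow_le_pow_right hN0 hr
    _ = (N : ℝ) ^ R := by push_cast; rfl
    _ ≤ (1 + 2 * T / lam) ^ R := pow_le_pow_left₀ (Nat.cast_nonneg _) hN2 R

/-- A non-zero algebraic integer has a conjugate of absolute value at least one. -/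
theorem exists_one_le_norm (F : Type*) [Field F] [NumberField F] (x : 𝓞 F) (hx : x ≠ 0) :
    ∃ φ : F →+* ℂ, 1 ≤ ‖φ (x : F)‖ := by
  by_contra hcon
  push Not at hcon
  have h1 : (1 : ℝ) ≤ |(Algebra.norm ℤ x : ℝ)| := by
    have h2 : Algebra.norm ℤ x ≠ 0 := by
      rw [Algebra.norm_ne_zero_iff]
      exact hx
    exact_mod_cast Int.one_le_abs h2
  have h3 : |(Algebra.norm ℤ x : ℝ)| = ∏ φ : F →+* ℂ, ‖φ (x : F)‖ := by
    have h4 : (algebraMap ℚ ℂ (Algebra.norm ℚ (x : F))) = ∏ φ : F →ₐ[ℚ] ℂ, φ (x : F) :=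
      Algebra.norm_eq_prod_embeddings ℚ ℂ (x : F)
    have h5 : ((Algebra.norm ℤ x : ℤ) : ℚ) = Algebra.norm ℚ (x : F) :=
      Algebra.coe_norm_int x
    rw [← h5] at h4
    have h6 : ‖((Algebra.norm ℤ x : ℤ) : ℂ)‖ = ∏ φ : F →ₐ[ℚ] ℂ, ‖φ (x : F)‖ := by
      rw [← norm_prod, ← h4]
      simp
    rw [← Complex.norm_intCast, h6]
    exact (Fintype.prod_equiv (RingHom.equivRatAlgHom (R := F) (S := ℂ)) _ _ (fun φ => rfl)).symm
  have hne : (Finset.univ : Finset (F →+* ℂ)).Nonempty := by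
    refine Finset.univ_nonempty_iff.mpr ?_
    infer_instance
  have h7 : ∏ φ : F →+* ℂ, ‖φ (x : F)‖ < 1 := by
    obtain ⟨φ0, _⟩ := hne
    have hx' : (x : F) ≠ 0 := fun h => hx (by exact_mod_cast h)
    calc ∏ φ : F →+* ℂ, ‖φ (x : F)‖ < ∏ φ : F →+* ℂ, (1 : ℝ) := by
          apply Finset.prod_lt_prod
          · intro φ _
            exact norm_pos_iff.mpr ((map_ne_zero φ).mpr hx')
          · intro φ _
            exact (hcon φ).le
          · exact ⟨φ0, Finset.mem_univ _, hcon φ0⟩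
      _ = 1 := by simp
  linarith

end Pool.Agent.H41.RG
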