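import Pool.Agent.H35.AN.Box
import Pool.Agent.H41.RG.Pack

/-!
# Project RG (MP_a3214d): integral vectors of bounded height, upper and lower counts
-/

set_option autoImplicit false

open NumberField Pool.Agent.H35.AN

namespace Pool.Agent.H41.RG

/-- At most `(1 + 2 Y)^m` integers have all conjugates at most `Y`. -/
theorem card_le_of_house (F : Type*) [Field F] [NumberField F] {Y : ℝ} (hY : 0 ≤ Y)
    (S : Finset (𝓞 F)) (hS : ∀ x ∈ S, ∀ φ : F →+* ℂ, ‖φ (x : F)‖ ≤ Y) :
    (S.card : ℝ) ≤ (1 + 2 * Y) ^ Module.finrank ℚ F := by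
  classical
  have hne : (Finset.univ : Finset (F →+* ℂ)).Nonempty := Finset.univ_nonempty_iff.mpr
    inferInstance
  have h := card_le_pack (G := 𝓞 F)
    (fun x => (Finset.univ : Finset (F →+* ℂ)).sup' hne (fun φ => ‖φ (x : F)‖))
    (by
      intro x y
      apply Finset.sup'_le
      intro φ hφ
      have h1 := Finset.le_sup' (fun φ : F →+* ℂ => ‖φ (x : F)‖) hφ
      have h2 := Finset.le_sup' (fun φ : F →+* ℂ => ‖φ (y : F)‖) hφ
      have h3 : ‖φ ((x - y : 𝓞 F) : F)‖ ≤ ‖φ (x : F)‖ + ‖φ (y : F)‖ := by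
        have h4 : ((x - y : 𝓞 F) : F) = (x : F) - (y : F) := rfl
        rw [h4, map_sub]
        exact norm_sub_le _ _
      exact h3.trans (add_le_add h1 h2))
    (by
      intro N x
      have h1 : ∀ φ : F →+* ℂ, ‖φ ((N • x : 𝓞 F) : F)‖ = N * ‖φ (x : F)‖ := by
        intro φ
        have h4 : ((N • x : 𝓞 F) : F) = (N : F) * (x : F) := by
          rw [nsmul_eq_mul]
          push_cast
          rfl
        rw [h4, map_mul, map_natCast, norm_mul, Complex.norm_natCast]
      simp only [h1]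
      apply le_antisymm
      · apply Finset.sup'_le
        intro φ hφ
        exact mul_le_mul_of_nonneg_left
          (Finset.le_sup' (fun φ : F →+* ℂ => ‖φ (x : F)‖) hφ) (Nat.cast_nonneg _)
      · obtain ⟨φ, hφ, h2⟩ := Finset.exists_mem_eq_sup' hne (fun φ : F →+* ℂ => ‖φ (x : F)‖)
        rw [h2]
        exact Finset.le_sup' (fun φ : F →+* ℂ => (N : ℝ) * ‖φ (x : F)‖) hφ)
    (lam := 1) (T := Y) one_pos hY S
    (by
      intro x _ hx
      obtain ⟨φ, hφ⟩ := exists_one_le_norm F x hx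
      exact hφ.trans (Finset.le_sup' (fun φ : F →+* ℂ => ‖φ (x : F)‖) (Finset.mem_univ φ)))
    (by
      intro x hx
      apply Finset.sup'_le
      intro φ _
      exact hS x hx φ)
    (Module.finrank ℚ F)
    (by
      intro n v _ hv
      have h1 := hv.fintype_card_le_finrank
      rwa [Fintype.card_fin, RingOfIntegers.rank] at h1)
  simpa using h

/-- Upper count of integral vectors with a weighted bound for the conjugates. -/
theorem box_upper (F : Type*) [Field F] [NumberField F] {s : ℕ} (d : Fin s → ℕ) {C0 : ℝ}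
    (hC0 : 0 < C0) : ∃ C : ℝ, 0 < C ∧ ∀ L : ℝ, 1 ≤ L → ∀ S : Finset (Fin s → 𝓞 F),
      (∀ u ∈ S, ∀ i, ∀ φ : F →+* ℂ, ‖φ (u i : F)‖ ≤ C0 * L ^ d i) →
      (S.card : ℝ) ≤ C * L ^ (Module.finrank ℚ F * ∑ i, d i) := by
  classical
  set m := Module.finrank ℚ F with hm
  refine ⟨∏ _i : Fin s, (1 + 2 * C0) ^ m, by positivity, ?_⟩
  intro L hL S hS
  have hsub : S ⊆ Fintype.piFinset (fun i => S.image (fun u => u i)) := by
    intro u hu
    rw [Fintype.mem_piFinset]
    intro i
    exact Finset.mem_image_of_mem _ hu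
  have hcard : (S.card : ℝ) ≤ ∏ i : Fin s, (((S.image (fun u => u i)).card : ℕ) : ℝ) := by
    have h := Finset.card_le_card hsub
    rw [Fintype.card_piFinset] at h
    exact_mod_cast h
  refine hcard.trans ?_
  have hL0 : (0 : ℝ) < L := lt_of_lt_of_le one_pos hL
  calc ∏ i : Fin s, (((S.image (fun u => u i)).card : ℕ) : ℝ)
      ≤ ∏ i : Fin s, ((1 + 2 * C0) ^ m * (L ^ d i) ^ m) := by
        apply Finset.prod_le_prod
        · intro i _
          positivity
        · intro i _
          have h1 : (((S.image (fun u => u i)).card : ℕ) : ℝ) ≤ (1 + 2 * (C0 * L ^ d i)) ^ m := by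
            apply card_le_of_house F (by positivity)
            intro x hx φ
            obtain ⟨u, hu, rfl⟩ := Finset.mem_image.mp hx
            exact hS u hu i φ
          refine h1.trans ?_
          rw [← mul_pow]
          apply pow_le_pow_left₀ (by positivity)
          have h2 : (1 : ℝ) ≤ L ^ d i := one_le_pow₀ hL
          nlinarith
    _ = (∏ _i : Fin s, (1 + 2 * C0) ^ m) * L ^ (m * ∑ i, d i) := by
        rw [Finset.prod_mul_distrib]
        congr 1
        rw [Finset.mul_sum, ← Finset.prod_pow_eq_pow_sum]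
        apply Finset.prod_congr rfl
        intro i _
        rw [← pow_mul, mul_comm]

/-- Lower count of integral vectors in a residue class with a weighted bound for the
conjugates. -/
theorem box_lower (F : Type) [Field F] [NumberField F] {s : ℕ} (d : Fin s → ℕ) {M : ℕ}
    (hM : 0 < M) (α : Fin s → 𝓞 F) : ∃ C0 : ℝ, 0 < C0 ∧ ∀ H : ℝ, 1 ≤ H →
      ∃ S : Finset (Fin s → 𝓞 F),
        (∀ u ∈ S, ∀ i, (M : 𝓞 F) ∣ u i - α i ∧ ∀ φ : F →+* ℂ, ‖φ (u i : F)‖ ≤ C0 * H ^ d i) ∧
        H ^ (Module.finrank ℚ F * ∑ i, d i) ≤ (S.card : ℝ) := by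
  classical
  set m := Module.finrank ℚ F with hm
  set Bd : ℝ := ∑ ψ : F →+* ℂ, ∑ i : Idx F, ‖ψ ((RingOfIntegers.basis F i : 𝓞 F) : F)‖ with hBd
  have hBd0 : 0 ≤ Bd := Finset.sum_nonneg (fun ψ _ => Finset.sum_nonneg (fun i _ => norm_nonneg _))
  have hBφ : ∀ φ : F →+* ℂ, ∑ i : Idx F, ‖φ ((RingOfIntegers.basis F i : 𝓞 F) : F)‖ ≤ Bd :=
    fun φ => an27_sum_le φ (fun ψ => ∑ i : Idx F, ‖ψ ((RingOfIntegers.basis F i : 𝓞 F) : F)‖)
      (fun ψ => Finset.sum_nonneg (fun i _ => norm_nonneg _))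
  set A : ℝ := ∑ i : Fin s, ∑ ψ : F →+* ℂ, ‖ψ (α i : F)‖ with hA
  have hA0 : 0 ≤ A := Finset.sum_nonneg (fun i _ => Finset.sum_nonneg (fun ψ _ => norm_nonneg _))
  have hAφ : ∀ i, ∀ φ : F →+* ℂ, ‖φ (α i : F)‖ ≤ A := by
    intro i φ
    refine (an27_sum_le φ (fun ψ => ‖ψ (α i : F)‖) (fun ψ => norm_nonneg _)).trans ?_
    exact Finset.single_le_sum (f := fun i => ∑ ψ : F →+* ℂ, ‖ψ (α i : F)‖)
      (fun i _ => Finset.sum_nonneg (fun ψ _ => norm_nonneg _)) (Finset.mem_univ i)
  refine ⟨2 * M * Bd + A + 1, by positivity, ?_⟩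
  intro H hH
  have hH0 : (0 : ℝ) < H := lt_of_lt_of_le one_pos hH
  let Q : Fin s → ℕ := fun i => ⌈H ^ d i⌉₊
  refine ⟨Fintype.piFinset (fun i => (box F (Q i)).image (boxElt F M (α i) 0)), ?_, ?_⟩
  · intro u hu i
    rw [Fintype.mem_piFinset] at hu
    obtain ⟨y, hy, hyu⟩ := Finset.mem_image.mp (hu i)
    rw [← hyu]
    constructor
    · unfold boxElt
      rw [add_sub_cancel_right]
      exact dvd_mul_right _ _
    · intro φ
      have hval : φ ((boxElt F M (α i) 0 y : 𝓞 F) : F) =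
          (M : ℂ) * (∑ j : Idx F, (y j : ℂ) *
            φ ((RingOfIntegers.basis F j : 𝓞 F) : F)) + φ (α i : F) := by
        unfold boxElt
        simp only [map_add, map_mul, map_natCast, map_sum, Nat.cast_zero, zero_add]
      have hHd : (1 : ℝ) ≤ H ^ d i := one_le_pow₀ hH
      have hy1 : ∀ j, (y j : ℝ) ≤ H ^ d i := by
        intro j
        unfold box at hy
        rw [Fintype.mem_piFinset] at hy
        have h1 := Finset.mem_range.mp (hy j)
        have h2 : y j + 1 ≤ ⌈H ^ d i⌉₊ := h1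
        have h3 : ((y j + 1 : ℕ) : ℝ) ≤ (⌈H ^ d i⌉₊ : ℝ) := by exact_mod_cast h2
        have h4 := Nat.ceil_lt_add_one (a := H ^ d i) (by positivity)
        push_cast at h3
        linarith
      rw [hval]
      have hs : ‖∑ j : Idx F, (y j : ℂ) * φ ((RingOfIntegers.basis F j : 𝓞 F) : F)‖ ≤
          H ^ d i * Bd := by
        calc ‖∑ j : Idx F, (y j : ℂ) * φ ((RingOfIntegers.basis F j : 𝓞 F) : F)‖
            ≤ ∑ j : Idx F, ‖(y j : ℂ) * φ ((RingOfIntegers.basis F j : 𝓞 F) : F)‖ :=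
              norm_sum_le _ _
          _ ≤ ∑ j : Idx F, H ^ d i * ‖φ ((RingOfIntegers.basis F j : 𝓞 F) : F)‖ := by
              apply Finset.sum_le_sum
              intro j _
              rw [norm_mul, Complex.norm_natCast]
              exact mul_le_mul_of_nonneg_right (hy1 j) (norm_nonneg _)
          _ = H ^ d i * ∑ j : Idx F, ‖φ ((RingOfIntegers.basis F j : 𝓞 F) : F)‖ := by
              rw [Finset.mul_sum]
          _ ≤ H ^ d i * Bd := mul_le_mul_of_nonneg_left (hBφ φ) (by positivity)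
      calc ‖(M : ℂ) * (∑ j : Idx F, (y j : ℂ) *
            φ ((RingOfIntegers.basis F j : 𝓞 F) : F)) + φ (α i : F)‖
          ≤ M * (H ^ d i * Bd) + A := by
            refine (norm_add_le _ _).trans (add_le_add ?_ (hAφ i φ))
            rw [norm_mul, Complex.norm_natCast]
            exact mul_le_mul_of_nonneg_left hs (Nat.cast_nonneg _)
        _ ≤ (2 * M * Bd + A + 1) * H ^ d i := by
            have h5 : A ≤ A * H ^ d i := le_mul_of_one_le_right hA0 hHd
            have h6 : 0 ≤ (M : ℝ) * Bd * H ^ d i := by positivity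
            nlinarith
  · rw [Fintype.card_piFinset]
    have h1 : ∀ i, ((box F (Q i)).image (boxElt F M (α i) 0)).card = (Q i) ^ m := by
      intro i
      rw [Finset.card_image_of_injective _ (boxElt_inj F hM (α i) 0), card_box]
    simp only [h1]
    push_cast
    rw [Finset.mul_sum, ← Finset.prod_pow_eq_pow_sum]
    apply Finset.prod_le_prod
    · intro i _
      positivity
    · intro i _
      rw [mul_comm, pow_mul]
      exact pow_le_pow_left₀ (by positivity) (Nat.le_ceil _) _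

end Pool.Agent.H41.RG
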