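import Mathlib

/-!
# Abstract dyadic count

`A` is a finite set of members, `S` a finite set of classes, `r` sends a member to its class,
`P g L` says that the class `g` has a nonzero vector of size at most `L`.  If few classes have
short vectors and a class without vectors of size at most `L` has few members, then there are
many classes.
-/

set_option autoImplicit false

namespace Pool.Agent.H41.RG

theorem rg_geom (J : ℕ) : ∑ j ∈ Finset.range J, ((1 : ℝ) / 2) ^ (j + 1) ≤ 1 := by
  have h : ∀ J : ℕ, ∑ j ∈ Finset.range J, ((1 : ℝ) / 2) ^ (j + 1) = 1 - (1 / 2) ^ J := by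
    intro J
    induction J with
    | zero => simp
    | succ J ih => rw [Finset.sum_range_succ, ih]; ring
  rw [h]
  have : (0 : ℝ) ≤ (1 / 2) ^ J := by positivity
  linarith

/-- the dyadic count -/
theorem dyadic_count (s t : ℕ) (hst : t < s) (c1 C1 C2 L0 : ℝ) (hc1 : 0 < c1) (hC1 : 0 < C1)
    (hC2 : 0 < C2) (hL0 : 0 < L0) :
    ∃ c : ℝ, 0 < c ∧ ∀ (H : ℝ), 0 < H → ∀ (ι κ : Type) [DecidableEq κ] (A : Finset ι)
      (S : Finset κ) (r : ι → κ), (∀ x ∈ A, r x ∈ S) → ∀ (P : κ → ℝ → Prop)
      [∀ L, DecidablePred (fun g => P g L)],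
      (∀ L, L0 ≤ L → ((S.filter (fun g => P g L)).card : ℝ) ≤ C1 * L ^ s) →
      (∀ g ∈ S, ∀ L, L < L0 → ¬ P g L) →
      (∀ g ∈ S, ∀ L, 0 < L → L ≤ H → ¬ P g L →
        ((A.filter (fun x => r x = g)).card : ℝ) ≤ C2 * (H / L) ^ t) →
      c1 * H ^ s ≤ (A.card : ℝ) → c * H ^ s ≤ (S.card : ℝ) := by
  classical
  -- the choice of the constant
  set D : ℝ := C1 * C2 * 2 ^ s with hD
  have hD0 : 0 < D := by positivity
  set c0 : ℝ := min (1 / 2) (c1 / (2 * D)) with hc0
  have hc0pos : 0 < c0 := lt_min (by norm_num) (by positivity)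
  have hc0half : c0 ≤ 1 / 2 := min_le_left _ _
  have hc0one : c0 ≤ 1 := by linarith
  have hc0c : c0 ≤ c1 / (2 * D) := min_le_right _ _
  refine ⟨c1 * c0 ^ t / (2 * C2), by positivity, ?_⟩
  intro H hH ι κ _ A S r hr P _ hfew hnone hpack hA
  have hHs : 0 < H ^ s := pow_pos hH s
  -- levels
  set Lv : ℕ → ℝ := fun j => c0 * H / 2 ^ j with hLv
  have hLvpos : ∀ j, 0 < Lv j := fun j => by simp only [hLv]; positivity
  have hLvle : ∀ j, Lv j ≤ H := by
    intro j
    simp only [hLv]
    rw [div_le_iff₀ (by positivity)]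
    have h1 : (1 : ℝ) ≤ 2 ^ j := one_le_pow₀ (by norm_num)
    have h2 : c0 * H ≤ 1 * H := mul_le_mul_of_nonneg_right hc0one hH.le
    nlinarith
  obtain ⟨J, hJ⟩ : ∃ J : ℕ, Lv J < L0 := by
    obtain ⟨J, hJ⟩ := exists_nat_gt (c0 * H / L0)
    refine ⟨J, ?_⟩
    simp only [hLv]
    rw [div_lt_iff₀ (by positivity)]
    rw [div_lt_iff₀ hL0] at hJ
    have h1 : (J : ℝ) < 2 ^ J := by exact_mod_cast Nat.lt_two_pow_self
    nlinarith
  have hex : ∀ g ∈ S, ∃ j, ¬ P g (Lv j) := fun g hg => ⟨J, hnone g hg _ hJ⟩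
  -- the level of a class
  let lev : κ → ℕ := fun g => if h : ∃ j, ¬ P g (Lv j) then Nat.find h else 0
  have hlev1 : ∀ g ∈ S, ¬ P g (Lv (lev g)) := by
    intro g hg
    have h := hex g hg
    simp only [lev, dif_pos h]
    exact Nat.find_spec h
  have hlev2 : ∀ g ∈ S, ∀ j, j + 1 = lev g → P g (Lv j) := by
    intro g hg j hj
    have h := hex g hg
    simp only [lev, dif_pos h] at hj
    by_contra hcon
    have := Nat.find_min' h hcon
    omega
  have hlevJ : ∀ g ∈ S, lev g ≤ J := by
    intro g hg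
    have h := hex g hg
    simp only [lev, dif_pos h]
    exact Nat.find_min' h (hnone g hg _ hJ)
  -- the fibres
  have hfib : ∀ g ∈ S, ((A.filter (fun x => r x = g)).card : ℝ) ≤
      C2 * (2 ^ (lev g) / c0) ^ t := by
    intro g hg
    have h1 := hpack g hg (Lv (lev g)) (hLvpos _) (hLvle _) (hlev1 g hg)
    refine h1.trans (le_of_eq ?_)
    congr 2
    simp only [hLv]
    have h2 : (0 : ℝ) < 2 ^ lev g := by positivity
    field_simp
  have hsum : (A.card : ℝ) = ∑ g ∈ S, ((A.filter (fun x => r x = g)).card : ℝ) := by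
    have h1 : A.card = ∑ g ∈ S, (A.filter (fun x => r x = g)).card :=
      Finset.card_eq_sum_card_fiberwise (fun x hx => hr x hx)
    rw [h1]
    push_cast
    rfl
  -- classes of level j + 1
  have hcnt : ∀ j, ((S.filter (fun g => lev g = j + 1)).card : ℝ) ≤ C1 * (Lv j) ^ s := by
    intro j
    by_cases hj : L0 ≤ Lv j
    · refine le_trans ?_ (hfew _ hj)
      have : S.filter (fun g => lev g = j + 1) ⊆ S.filter (fun g => P g (Lv j)) := by
        intro g hg
        rw [Finset.mem_filter] at hg ⊢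
        exact ⟨hg.1, hlev2 g hg.1 j hg.2.symm⟩
      exact_mod_cast Finset.card_le_card this
    · have : S.filter (fun g => lev g = j + 1) = ∅ := by
        rw [Finset.filter_eq_empty_iff]
        intro g hg hcon
        exact hnone g hg _ (lt_of_not_ge hj) (hlev2 g hg j hcon.symm)
      rw [this, Finset.card_empty, Nat.cast_zero]
      have := hLvpos j
      positivity
  -- summation over the levels
  have hmaps : ∀ g ∈ S, lev g ∈ Finset.range (J + 1) := by
    intro g hg
    rw [Finset.mem_range]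
    have := hlevJ g hg
    omega
  have hA2 : (A.card : ℝ) ≤ ∑ j ∈ Finset.range (J + 1),
      ((S.filter (fun g => lev g = j)).card : ℝ) * (C2 * (2 ^ j / c0) ^ t) := by
    rw [hsum]
    calc ∑ g ∈ S, ((A.filter (fun x => r x = g)).card : ℝ)
        ≤ ∑ g ∈ S, C2 * (2 ^ (lev g) / c0) ^ t := Finset.sum_le_sum hfib
      _ = ∑ j ∈ Finset.range (J + 1), ∑ g ∈ S.filter (fun g => lev g = j),
            C2 * (2 ^ (lev g) / c0) ^ t := (Finset.sum_fiberwise_of_maps_to hmaps _).symm
      _ = ∑ j ∈ Finset.range (J + 1),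
            ((S.filter (fun g => lev g = j)).card : ℝ) * (C2 * (2 ^ j / c0) ^ t) := by
          refine Finset.sum_congr rfl fun j _ => ?_
          rw [Finset.sum_congr rfl (g := fun _ => C2 * (2 ^ j / c0) ^ t)]
          · rw [Finset.sum_const, nsmul_eq_mul]
          · intro g hg
            rw [Finset.mem_filter] at hg
            rw [hg.2]
  rw [Finset.sum_range_succ'] at hA2
  -- the tail
  have htail : ∑ j ∈ Finset.range J, ((S.filter (fun g => lev g = j + 1)).card : ℝ) *
      (C2 * (2 ^ (j + 1) / c0) ^ t) ≤ c1 / 2 * H ^ s := by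
    calc ∑ j ∈ Finset.range J, ((S.filter (fun g => lev g = j + 1)).card : ℝ) *
          (C2 * (2 ^ (j + 1) / c0) ^ t)
        ≤ ∑ j ∈ Finset.range J, D * c0 * H ^ s * (1 / 2) ^ (j + 1) := by
          refine Finset.sum_le_sum fun j _ => ?_
          have h1 : ((S.filter (fun g => lev g = j + 1)).card : ℝ) *
              (C2 * (2 ^ (j + 1) / c0) ^ t) ≤ C1 * (Lv j) ^ s * (C2 * (2 ^ (j + 1) / c0) ^ t) :=
            mul_le_mul_of_nonneg_right (hcnt j) (by positivity)
          refine h1.trans ?_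
          obtain ⟨v, rfl⟩ : ∃ v, s = t + 1 + v := ⟨s - (t + 1), by omega⟩
          -- value of the left side
          have h2 : C1 * (Lv j) ^ (t + 1 + v) * (C2 * (2 ^ (j + 1) / c0) ^ t) =
              (C1 * C2 * 2 ^ (t + 1 + v)) * H ^ (t + 1 + v) * (c0 * c0 ^ v) *
                ((1 / 2) ^ (j + 1) * ((1 / 2) ^ (j + 1)) ^ v) := by
            simp only [hLv]
            have e1 : c0 * H / 2 ^ j = c0 * H * 2 * (1 / 2) ^ (j + 1) := by
              rw [one_div, inv_pow, pow_succ]
              field_simp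
            have e2 : (2 : ℝ) ^ (j + 1) / c0 = (c0 * (1 / 2) ^ (j + 1))⁻¹ := by
              rw [one_div, inv_pow, mul_inv, inv_inv]
              ring
            rw [e1, e2]
            have h3 : (c0 * (1 / 2) ^ (j + 1)) ≠ 0 := by positivity
            set z : ℝ := (1 / 2) ^ (j + 1) with hz
            have e3 : (c0 * H * 2 * z) ^ (t + 1 + v) =
                (c0 * z) ^ t * ((c0 * z) * (c0 * z) ^ v * H ^ (t + 1 + v) * 2 ^ (t + 1 + v)) := by
              rw [show c0 * H * 2 * z = (c0 * z) * (H * 2) by ring, mul_pow, mul_pow H 2,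
                pow_add, pow_add, pow_one]
              ring
            rw [e3, inv_pow]
            have h4 : (c0 * z) ^ t * ((c0 * z) ^ t)⁻¹ = 1 := mul_inv_cancel₀ (pow_ne_zero _ h3)
            calc C1 * ((c0 * z) ^ t * ((c0 * z) * (c0 * z) ^ v * H ^ (t + 1 + v) *
                  2 ^ (t + 1 + v))) * (C2 * ((c0 * z) ^ t)⁻¹)
                = C1 * C2 * ((c0 * z) * (c0 * z) ^ v * H ^ (t + 1 + v) * 2 ^ (t + 1 + v)) *
                    ((c0 * z) ^ t * ((c0 * z) ^ t)⁻¹) := by ring
              _ = _ := by rw [h4, mul_pow]; ring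
          rw [h2]
          have hz0 : (0 : ℝ) ≤ (1 / 2) ^ (j + 1) := by positivity
          have hz1 : ((1 : ℝ) / 2) ^ (j + 1) ≤ 1 := pow_le_one₀ (by norm_num) (by norm_num)
          have h5 : c0 * c0 ^ v ≤ c0 * 1 :=
            mul_le_mul_of_nonneg_left (pow_le_one₀ hc0pos.le hc0one) hc0pos.le
          have h6 : ((1 : ℝ) / 2) ^ (j + 1) * (((1 : ℝ) / 2) ^ (j + 1)) ^ v ≤
              (1 / 2) ^ (j + 1) * 1 :=
            mul_le_mul_of_nonneg_left (pow_le_one₀ hz0 hz1) hz0
          calc C1 * C2 * 2 ^ (t + 1 + v) * H ^ (t + 1 + v) * (c0 * c0 ^ v) *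
                ((1 / 2) ^ (j + 1) * ((1 / 2) ^ (j + 1)) ^ v)
              ≤ C1 * C2 * 2 ^ (t + 1 + v) * H ^ (t + 1 + v) * (c0 * 1) *
                ((1 / 2) ^ (j + 1) * 1) := by
                apply mul_le_mul
                · exact mul_le_mul_of_nonneg_left h5 (by positivity)
                · exact h6
                · positivity
                · positivity
            _ = D * c0 * H ^ (t + 1 + v) * (1 / 2) ^ (j + 1) := by rw [hD]; ring
      _ = D * c0 * H ^ s * ∑ j ∈ Finset.range J, (1 / 2) ^ (j + 1) := by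
          rw [Finset.mul_sum]
      _ ≤ D * c0 * H ^ s * 1 :=
          mul_le_mul_of_nonneg_left (rg_geom J) (by positivity)
      _ ≤ c1 / 2 * H ^ s := by
          rw [mul_one]
          refine mul_le_mul_of_nonneg_right ?_ hHs.le
          rw [le_div_iff₀ (by positivity)] at hc0c
          linarith
  -- the classes of level 0
  have hzero : ((S.filter (fun g => lev g = 0)).card : ℝ) ≤ S.card := by
    exact_mod_cast Finset.card_filter_le _ _
  have hfinal : c1 / 2 * H ^ s ≤ (S.card : ℝ) * (C2 * (1 / c0) ^ t) := by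
    have h1 : ((S.filter (fun g => lev g = 0)).card : ℝ) * (C2 * (2 ^ 0 / c0) ^ t) ≤
        (S.card : ℝ) * (C2 * (1 / c0) ^ t) := by
      rw [pow_zero]
      exact mul_le_mul_of_nonneg_right hzero (by positivity)
    linarith
  have h7 : c1 * c0 ^ t / (2 * C2) * H ^ s = (c1 / 2 * H ^ s) * (c0 ^ t / C2) := by
    field_simp
  have h8 : (S.card : ℝ) = ((S.card : ℝ) * (C2 * (1 / c0) ^ t)) * (c0 ^ t / C2) := by
    rw [one_div, inv_pow]
    have : c0 ^ t ≠ 0 := by positivity
    field_simp
  rw [h7, h8]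
  exact mul_le_mul_of_nonneg_right hfinal (by positivity)

end Pool.Agent.H41.RG
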